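import Pool.Agent.R43.Cover

/-!
# MP_93535d_co: a graph with `mp < γ_{b,f} < γ_b` and `γ_{b,f}` an integer

The graph has 17 vertices; `mp ≤ 4`, `γ_{b,f} = 5` and `γ_b ≥ 6`.
-/

set_option autoImplicit false

namespace Pool.Agent.Results.MP_93535d_co.Integral

open Pool.Agent.R43

section Definitions

variable {V : Type} [Fintype V] [DecidableEq V]

/-- The eccentricity of `v`. -/
noncomputable def ecc (G : SimpleGraph V) (v : V) : ℕ := Finset.univ.sup fun u => G.dist v u

/-- `f` is a dominating broadcast: `f v ≤ e(v)` for all `v`, and every `u` has some `v` with `f v ≥ 1` and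
`d(u, v) ≤ f v`. -/
def DominatingBroadcast (G : SimpleGraph V) (f : V → ℕ) : Prop :=
  (∀ v, f v ≤ ecc G v) ∧ ∀ u, ∃ v, 1 ≤ f v ∧ G.dist u v ≤ f v

/-- The broadcast domination number `γ_b(G)`. -/
noncomputable def broadcastNumber (G : SimpleGraph V) : ℕ :=
  sInf {c : ℕ | ∃ f : V → ℕ, DominatingBroadcast G f ∧ ∑ v, f v = c}

/-- `M` is a multipacking: `|N_k[v] ∩ M| ≤ k` for all `v` and all `k ≥ 1`. -/
def Multipacking (G : SimpleGraph V) (M : Finset V) : Prop :=
  ∀ v, ∀ k : ℕ, 1 ≤ k → (M.filter fun u => G.dist u v ≤ k).card ≤ k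

/-- The multipacking number `mp(G)`. -/
noncomputable def multipackingNumber (G : SimpleGraph V) : ℕ :=
  sSup {c : ℕ | ∃ M : Finset V, Multipacking G M ∧ M.card = c}

/-- Feasible solutions of the linear program: `x v k ≥ 0`, and for every `u` the sum of the `x v k` over
the pairs `(v, k)` with `1 ≤ k ≤ e(v)` and `d(u, v) ≤ k` is at least `1`. -/
def FracFeasible (G : SimpleGraph V) (x : V → ℕ → ℝ) : Prop :=
  (∀ v k, 0 ≤ x v k) ∧
    ∀ u, 1 ≤ ∑ v, ∑ k ∈ (Finset.Icc 1 (ecc G v)).filter (fun k => G.dist u v ≤ k), x v k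

/-- The objective `∑_v ∑_{1 ≤ k ≤ e(v)} k x v k`. -/
noncomputable def fracCost (G : SimpleGraph V) (x : V → ℕ → ℝ) : ℝ :=
  ∑ v, ∑ k ∈ Finset.Icc 1 (ecc G v), (k : ℝ) * x v k

/-- The fractional broadcast number `γ_{b,f}(G)`. -/
noncomputable def fracBroadcastNumber (G : SimpleGraph V) : ℝ :=
  sInf {c : ℝ | ∃ x : V → ℕ → ℝ, FracFeasible G x ∧ fracCost G x = c}

/-- Weak duality. -/
theorem weak_duality (G : SimpleGraph V) (y : V → ℝ) (hy : ∀ u, 0 ≤ y u)
    (hball : ∀ v, ∀ k ∈ Finset.Icc 1 (ecc G v), ∑ u, (if G.dist u v ≤ k then y u else 0) ≤ k)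
    (x : V → ℕ → ℝ) (hx : FracFeasible G x) : ∑ u, y u ≤ fracCost G x := by
  calc ∑ u, y u = ∑ u, y u * 1 := by simp
    _ ≤ ∑ u, y u * ∑ v, ∑ k ∈ (Finset.Icc 1 (ecc G v)).filter (fun k => G.dist u v ≤ k), x v k :=
        Finset.sum_le_sum fun u _ => mul_le_mul_of_nonneg_left (hx.2 u) (hy u)
    _ = ∑ u, ∑ v, ∑ k ∈ Finset.Icc 1 (ecc G v), (if G.dist u v ≤ k then y u else 0) * x v k := by
        apply Finset.sum_congr rfl
        intro u _
        rw [Finset.mul_sum]
        apply Finset.sum_congr rfl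
        intro v _
        rw [Finset.sum_filter, Finset.mul_sum]
        apply Finset.sum_congr rfl
        intro k _
        split_ifs <;> simp
    _ = ∑ v, ∑ k ∈ Finset.Icc 1 (ecc G v), (∑ u, (if G.dist u v ≤ k then y u else 0)) * x v k := by
        rw [Finset.sum_comm]
        apply Finset.sum_congr rfl
        intro v _
        rw [Finset.sum_comm]
        apply Finset.sum_congr rfl
        intro k _
        rw [Finset.sum_mul]
    _ ≤ fracCost G x := by
        apply Finset.sum_le_sum
        intro v _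
        apply Finset.sum_le_sum
        intro k hk
        exact mul_le_mul_of_nonneg_right (hball v k hk) (hx.1 v k)

end Definitions

/-! ### The graph -/

/-- The distance table. -/
def Dl : List (List ℕ) :=
   [[0, 1, 2, 1, 2, 3, 4, 4, 5, 6, 7, 7, 8, 9, 10, 10, 9],
    [1, 0, 1, 2, 1, 2, 3, 3, 4, 5, 6, 6, 7, 8, 9, 9, 8],
    [2, 1, 0, 1, 2, 3, 4, 4, 5, 6, 7, 7, 8, 9, 10, 10, 9],
    [1, 2, 1, 0, 3, 4, 5, 5, 6, 7, 8, 8, 9, 10, 11, 11, 10],
    [2, 1, 2, 3, 0, 1, 2, 2, 3, 4, 5, 5, 6, 7, 8, 8, 7],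
    [3, 2, 3, 4, 1, 0, 1, 1, 2, 3, 4, 4, 5, 6, 7, 7, 6],
    [4, 3, 4, 5, 2, 1, 0, 1, 2, 3, 4, 4, 5, 6, 7, 7, 6],
    [4, 3, 4, 5, 2, 1, 1, 0, 1, 2, 3, 3, 4, 5, 6, 6, 5],
    [5, 4, 5, 6, 3, 2, 2, 1, 0, 1, 2, 2, 3, 4, 5, 5, 4],
    [6, 5, 6, 7, 4, 3, 3, 2, 1, 0, 1, 1, 2, 3, 4, 4, 3],
    [7, 6, 7, 8, 5, 4, 4, 3, 2, 1, 0, 2, 3, 4, 5, 5, 4],
    [7, 6, 7, 8, 5, 4, 4, 3, 2, 1, 2, 0, 1, 2, 3, 3, 2],
    [8, 7, 8, 9, 6, 5, 5, 4, 3, 2, 3, 1, 0, 1, 2, 2, 1],
    [9, 8, 9, 10, 7, 6, 6, 5, 4, 3, 4, 2, 1, 0, 1, 2, 2],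
    [10, 9, 10, 11, 8, 7, 7, 6, 5, 4, 5, 3, 2, 1, 0, 1, 2],
    [10, 9, 10, 11, 8, 7, 7, 6, 5, 4, 5, 3, 2, 2, 1, 0, 1],
    [9, 8, 9, 10, 7, 6, 6, 5, 4, 3, 4, 2, 1, 2, 2, 1, 0]]

/-- The distance function. -/
def D (u v : Fin 17) : ℕ := (Dl.getD u []).getD v 0

/-- The graph: two vertices are adjacent when their table entry is `1`. -/
def G : SimpleGraph (Fin 17) where
  Adj u v := D u v = 1
  symm := ⟨by
    have : ∀ u v, D u v = 1 → D v u = 1 := by decide +kernel
    exact fun u v => this u v⟩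
  loopless := ⟨by
    have : ∀ u, ¬ D u u = 1 := by decide +kernel
    exact fun u => this u⟩

theorem G_dist (u v : Fin 17) : G.dist u v = D u v := by
  apply BSearch.dist_eq_of_table G D
  · decide +kernel
  · decide +kernel
  · have : ∀ u v w, D u v = 1 → D u w ≤ D v w + 1 := by decide +kernel
    exact fun u v w h => this u v w h
  · have : ∀ u v, D u v ≠ 0 → ∃ w, D u w = 1 ∧ D w v + 1 = D u v := by decide +kernel
    exact fun u v h => this u v h

theorem G_connected : G.Connected := by
  apply BSearch.connected_of_table G D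
  · decide +kernel
  · have : ∀ u v, D u v ≠ 0 → ∃ w, D u w = 1 ∧ D w v + 1 = D u v := by decide +kernel
    exact fun u v h => this u v h

/-- The eccentricities. -/
def E (v : Fin 17) : ℕ := Finset.univ.sup fun u => D v u

theorem G_ecc (v : Fin 17) : ecc G v = E v := by
  unfold ecc E
  simp only [G_dist]

/-! ### The broadcast number -/

/-- For every vertex `u`, the balls of radius at most `5` containing `u`. -/
def Tl : List (List (ℕ × ℕ)) :=
   [[(1, 11), (2, 31), (3, 63), (4, 255), (5, 511), (1, 23), (2, 63), (3, 255), (4, 511), (5, 1023), (2, 31), (3, 63), (4, 255), (5, 511), (1, 13), (2, 15), (3, 31), (4, 63), (5, 255), (2, 247), (3, 511), (4, 1023), (5, 4095), (3, 1015), (4, 4095), (5, 8191), (4, 4087), (5, 8191), (4, 8183), (5, 81919), (5, 131063)],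
    [(1, 11), (2, 31), (3, 63), (4, 255), (5, 511), (1, 23), (2, 63), (3, 255), (4, 511), (5, 1023), (1, 14), (2, 31), (3, 63), (4, 255), (5, 511), (2, 15), (3, 31), (4, 63), (5, 255), (1, 50), (2, 247), (3, 511), (4, 1023), (5, 4095), (2, 498), (3, 1015), (4, 4095), (5, 8191), (3, 1010), (4, 4087), (5, 8191), (3, 4082), (4, 8183), (5, 81919), (4, 81906), (5, 131063), (5, 131058)],
    [(2, 31), (3, 63), (4, 255), (5, 511), (1, 23), (2, 63), (3, 255), (4, 511), (5, 1023), (1, 14), (2, 31), (3, 63), (4, 255), (5, 511), (1, 13), (2, 15), (3, 31), (4, 63), (5, 255), (2, 247), (3, 511), (4, 1023), (5, 4095), (3, 1015), (4, 4095), (5, 8191), (4, 4087), (5, 8191), (4, 8183), (5, 81919), (5, 131063)],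
    [(1, 11), (2, 31), (3, 63), (4, 255), (5, 511), (2, 63), (3, 255), (4, 511), (5, 1023), (1, 14), (2, 31), (3, 63), (4, 255), (5, 511), (1, 13), (2, 15), (3, 31), (4, 63), (5, 255), (3, 511), (4, 1023), (5, 4095), (4, 4095), (5, 8191), (5, 8191), (5, 81919)],
    [(2, 31), (3, 63), (4, 255), (5, 511), (1, 23), (2, 63), (3, 255), (4, 511), (5, 1023), (2, 31), (3, 63), (4, 255), (5, 511), (3, 31), (4, 63), (5, 255), (1, 50), (2, 247), (3, 511), (4, 1023), (5, 4095), (1, 240), (2, 498), (3, 1015), (4, 4095), (5, 8191), (2, 496), (3, 1010), (4, 4087), (5, 8191), (2, 1008), (3, 4082), (4, 8183), (5, 81919), (3, 8176), (4, 81906), (5, 131063), (4, 131056), (5, 131058), (5, 131056), (5, 131056)],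
    [(3, 63), (4, 255), (5, 511), (2, 63), (3, 255), (4, 511), (5, 1023), (3, 63), (4, 255), (5, 511), (4, 63), (5, 255), (1, 50), (2, 247), (3, 511), (4, 1023), (5, 4095), (1, 240), (2, 498), (3, 1015), (4, 4095), (5, 8191), (1, 224), (2, 496), (3, 1010), (4, 4087), (5, 8191), (1, 480), (2, 1008), (3, 4082), (4, 8183), (5, 81919), (2, 4064), (3, 8176), (4, 81906), (5, 131063), (3, 81888), (4, 131056), (5, 131058), (4, 81888), (5, 131056), (4, 131040), (5, 131056), (5, 131040)],
    [(4, 255), (5, 511), (3, 255), (4, 511), (5, 1023), (4, 255), (5, 511), (5, 255), (2, 247), (3, 511), (4, 1023), (5, 4095), (1, 240), (2, 498), (3, 1015), (4, 4095), (5, 8191), (1, 224), (2, 496), (3, 1010), (4, 4087), (5, 8191), (1, 480), (2, 1008), (3, 4082), (4, 8183), (5, 81919), (2, 4064), (3, 8176), (4, 81906), (5, 131063), (3, 81888), (4, 131056), (5, 131058), (4, 81888), (5, 131056), (4, 131040), (5, 131056), (5, 131040)],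
    [(4, 255), (5, 511), (3, 255), (4, 511), (5, 1023), (4, 255), (5, 511), (5, 255), (2, 247), (3, 511), (4, 1023), (5, 4095), (1, 240), (2, 498), (3, 1015), (4, 4095), (5, 8191), (1, 224), (2, 496), (3, 1010), (4, 4087), (5, 8191), (1, 480), (2, 1008), (3, 4082), (4, 8183), (5, 81919), (1, 896), (2, 4064), (3, 8176), (4, 81906), (5, 131063), (2, 8064), (3, 81888), (4, 131056), (5, 131058), (3, 8064), (4, 81888), (5, 131056), (3, 130944), (4, 131040), (5, 131056), (4, 130944), (5, 131040), (5, 130944), (5, 130944)],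
    [(5, 511), (4, 511), (5, 1023), (5, 511), (3, 511), (4, 1023), (5, 4095), (2, 498), (3, 1015), (4, 4095), (5, 8191), (2, 496), (3, 1010), (4, 4087), (5, 8191), (1, 480), (2, 1008), (3, 4082), (4, 8183), (5, 81919), (1, 896), (2, 4064), (3, 8176), (4, 81906), (5, 131063), (1, 3840), (2, 8064), (3, 81888), (4, 131056), (5, 131058), (2, 3840), (3, 8064), (4, 81888), (5, 131056), (2, 81664), (3, 130944), (4, 131040), (5, 131056), (3, 130816), (4, 130944), (5, 131040), (4, 130816), (5, 130944), (5, 130816), (5, 130816), (4, 130816), (5, 130944)],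
    [(5, 1023), (4, 1023), (5, 4095), (3, 1015), (4, 4095), (5, 8191), (3, 1010), (4, 4087), (5, 8191), (2, 1008), (3, 4082), (4, 8183), (5, 81919), (1, 896), (2, 4064), (3, 8176), (4, 81906), (5, 131063), (1, 3840), (2, 8064), (3, 81888), (4, 131056), (5, 131058), (1, 1536), (2, 3840), (3, 8064), (4, 81888), (5, 131056), (1, 6656), (2, 81664), (3, 130944), (4, 131040), (5, 131056), (2, 129536), (3, 130816), (4, 130944), (5, 131040), (3, 129536), (4, 130816), (5, 130944), (4, 129536), (5, 130816), (4, 129536), (5, 130816), (3, 129536), (4, 130816), (5, 130944)],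
    [(5, 4095), (4, 4095), (5, 8191), (4, 4087), (5, 8191), (3, 4082), (4, 8183), (5, 81919), (2, 4064), (3, 8176), (4, 81906), (5, 131063), (1, 3840), (2, 8064), (3, 81888), (4, 131056), (5, 131058), (1, 1536), (2, 3840), (3, 8064), (4, 81888), (5, 131056), (2, 81664), (3, 130944), (4, 131040), (5, 131056), (3, 130816), (4, 130944), (5, 131040), (4, 130816), (5, 130944), (5, 130816), (5, 130816), (4, 130816), (5, 130944)],
    [(5, 4095), (4, 4095), (5, 8191), (4, 4087), (5, 8191), (3, 4082), (4, 8183), (5, 81919), (2, 4064), (3, 8176), (4, 81906), (5, 131063), (1, 3840), (2, 8064), (3, 81888), (4, 131056), (5, 131058), (2, 3840), (3, 8064), (4, 81888), (5, 131056), (1, 6656), (2, 81664), (3, 130944), (4, 131040), (5, 131056), (1, 79872), (2, 129536), (3, 130816), (4, 130944), (5, 131040), (2, 129024), (3, 129536), (4, 130816), (5, 130944), (3, 129024), (4, 129536), (5, 130816), (3, 129024), (4, 129536), (5, 130816), (2, 129024), (3, 129536), (4, 130816), (5, 130944)],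
    [(5, 8191), (5, 8191), (4, 8183), (5, 81919), (3, 8176), (4, 81906), (5, 131063), (2, 8064), (3, 81888), (4, 131056), (5, 131058), (3, 8064), (4, 81888), (5, 131056), (1, 6656), (2, 81664), (3, 130944), (4, 131040), (5, 131056), (1, 79872), (2, 129536), (3, 130816), (4, 130944), (5, 131040), (1, 28672), (2, 129024), (3, 129536), (4, 130816), (5, 130944), (2, 126976), (3, 129024), (4, 129536), (5, 130816), (2, 126976), (3, 129024), (4, 129536), (5, 130816), (1, 102400), (2, 129024), (3, 129536), (4, 130816), (5, 130944)],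
    [(5, 81919), (4, 81906), (5, 131063), (3, 81888), (4, 131056), (5, 131058), (4, 81888), (5, 131056), (2, 81664), (3, 130944), (4, 131040), (5, 131056), (1, 79872), (2, 129536), (3, 130816), (4, 130944), (5, 131040), (1, 28672), (2, 129024), (3, 129536), (4, 130816), (5, 130944), (1, 57344), (2, 126976), (3, 129024), (4, 129536), (5, 130816), (2, 126976), (3, 129024), (4, 129536), (5, 130816), (2, 129024), (3, 129536), (4, 130816), (5, 130944)],
    [(5, 131063), (4, 131056), (5, 131058), (5, 131056), (3, 130944), (4, 131040), (5, 131056), (2, 129536), (3, 130816), (4, 130944), (5, 131040), (1, 28672), (2, 129024), (3, 129536), (4, 130816), (5, 130944), (1, 57344), (2, 126976), (3, 129024), (4, 129536), (5, 130816), (1, 114688), (2, 126976), (3, 129024), (4, 129536), (5, 130816), (2, 129024), (3, 129536), (4, 130816), (5, 130944)],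
    [(5, 131063), (4, 131056), (5, 131058), (5, 131056), (3, 130944), (4, 131040), (5, 131056), (2, 129536), (3, 130816), (4, 130944), (5, 131040), (2, 129024), (3, 129536), (4, 130816), (5, 130944), (1, 57344), (2, 126976), (3, 129024), (4, 129536), (5, 130816), (1, 114688), (2, 126976), (3, 129024), (4, 129536), (5, 130816), (1, 102400), (2, 129024), (3, 129536), (4, 130816), (5, 130944)],
    [(5, 81919), (4, 81906), (5, 131063), (3, 81888), (4, 131056), (5, 131058), (4, 81888), (5, 131056), (2, 81664), (3, 130944), (4, 131040), (5, 131056), (1, 79872), (2, 129536), (3, 130816), (4, 130944), (5, 131040), (2, 129024), (3, 129536), (4, 130816), (5, 130944), (2, 126976), (3, 129024), (4, 129536), (5, 130816), (1, 114688), (2, 126976), (3, 129024), (4, 129536), (5, 130816), (1, 102400), (2, 129024), (3, 129536), (4, 130816), (5, 130944)]]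

/-- The table. -/
def tab (u : Fin 17) : List (ℕ × ℕ) := Tl.getD u []

theorem tab_spec : ∀ u v : Fin 17, ∀ k, 1 ≤ k → k ≤ E v → k ≤ 5 → D v u ≤ k →
    (k, BSearch.ballM D v k) ∈ tab u := by
  have h : ∀ u v : Fin 17, ∀ k ∈ Finset.range 6, 1 ≤ k → k ≤ E v → D v u ≤ k →
    (k, BSearch.ballM D v k) ∈ tab u := by decide +kernel
  intro u v k h1 h2 h3 h4
  exact h u v k (Finset.mem_range.2 (by omega)) h1 h2 h4

theorem search_false : Cover.cgo tab 5 0 5 = false := by decide +kernel

theorem six_le : 6 ≤ broadcastNumber G := by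
  unfold broadcastNumber
  have hne : {c : ℕ | ∃ f : Fin 17 → ℕ, DominatingBroadcast G f ∧ ∑ v, f v = c}.Nonempty := by
    refine ⟨∑ v, E v, E, ⟨fun v => (G_ecc v).ge, ?_⟩, rfl⟩
    have key : ∀ u, ∃ v, 1 ≤ E v ∧ D u v ≤ E v := by decide +kernel
    intro u
    obtain ⟨v, h1, h2⟩ := key u
    exact ⟨v, h1, by rw [G_dist]; exact h2⟩
  obtain ⟨f, ⟨hf1, hf2⟩, hf3⟩ := Nat.sInf_mem hne
  by_contra hlt
  have h := Cover.cgo_sound D E 5 tab tab_spec 5 0 5 le_rfl le_rfl f
    (fun v => (hf1 v).trans_eq (G_ecc v)) (by omega) (by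
      intro u _
      obtain ⟨v, hv1, hv2⟩ := hf2 u
      refine ⟨v, by omega, ?_⟩
      rw [← G_dist, SimpleGraph.dist_comm]
      exact hv2)
  rw [search_false] at h
  exact absurd h (by simp)

/-! ### The multipacking number -/

/-- Four classes of diameter at most `2`. -/
def cls (v : Fin 17) : Fin 4 := if v.val < 4 then 0 else if v.val < 8 then 1 else if v.val < 12 then 2 else 3

theorem mp_le : multipackingNumber G ≤ 4 := by
  apply csSup_le'
  rintro c ⟨M, hM, rfl⟩
  have hinj : Set.InjOn cls (M : Set (Fin 17)) := by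
    intro u hu v hv huv
    by_contra hne
    have key : ∀ u v, cls u = cls v → ∃ w, D u w ≤ 1 ∧ D v w ≤ 1 := by decide +kernel
    obtain ⟨w, h1, h2⟩ := key u v huv
    have h3 := hM w 1 le_rfl
    have h4 : ({u, v} : Finset (Fin 17)) ⊆ M.filter fun z => G.dist z w ≤ 1 := by
      intro z hz
      rw [Finset.mem_insert, Finset.mem_singleton] at hz
      rw [Finset.mem_filter, G_dist]
      rcases hz with rfl | rfl
      · exact ⟨hu, h1⟩
      · exact ⟨hv, h2⟩
    have h5 := Finset.card_le_card h4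
    rw [Finset.card_pair hne] at h5
    omega
  calc M.card = (M.image cls).card := (Finset.card_image_of_injOn hinj).symm
    _ ≤ (Finset.univ : Finset (Fin 4)).card := Finset.card_le_card (Finset.subset_univ _)
    _ = 4 := by simp

/-! ### The fractional broadcast number -/

/-- Three times an optimal fractional multipacking. -/
def Yl : List ℕ := [1, 1, 1, 1, 0, 2, 1, 0, 0, 1, 2, 0, 1, 1, 1, 1, 1]

/-- Three times an optimal fractional multipacking. -/
def Y (u : Fin 17) : ℕ := Yl.getD u 0

/-- Three times an optimal fractional broadcast: the list of the values at `(v, 1)`. -/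
def X1 : List ℕ := [1, 1, 1, 1, 0, 2, 0, 0, 0, 2, 0, 0, 0, 1, 1, 1, 1]

/-- Three times an optimal fractional broadcast. -/
def X (v : Fin 17) (k : ℕ) : ℕ :=
  if k = 1 then X1.getD v 0 else if k = 3 ∧ v.val = 9 then 1 else 0

theorem frac_eq : fracBroadcastNumber G = 5 := by
  apply le_antisymm
  · apply csInf_le
    · refine ⟨0, ?_⟩
      rintro c ⟨x, hx, rfl⟩
      apply Finset.sum_nonneg
      intro v _
      apply Finset.sum_nonneg
      intro k _
      exact mul_nonneg (Nat.cast_nonneg k) (hx.1 v k)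
    · refine ⟨fun v k => (X v k : ℝ) / 3, ⟨fun v k => by positivity, ?_⟩, ?_⟩
      · intro u
        have key : ∀ u : Fin 17, 3 ≤ ∑ v, ∑ k ∈ (Finset.Icc 1 (E v)).filter (fun k => D u v ≤ k), X v k := by
          decide +kernel
        simp only [G_dist, G_ecc]
        have h1 : ∑ v, ∑ k ∈ (Finset.Icc 1 (E v)).filter (fun k => D u v ≤ k), (X v k : ℝ) / 3 =
            ((∑ v, ∑ k ∈ (Finset.Icc 1 (E v)).filter (fun k => D u v ≤ k), X v k : ℕ) : ℝ) / 3 := by
          push_cast
          rw [Finset.sum_div]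
          apply Finset.sum_congr rfl
          intro v _
          rw [Finset.sum_div]
        rw [h1, le_div_iff₀ (by norm_num), one_mul]
        exact_mod_cast key u
      · have key : ∑ v, ∑ k ∈ Finset.Icc 1 (E v), k * X v k = 15 := by decide +kernel
        unfold fracCost
        simp only [G_ecc]
        have h1 : ∑ v, ∑ k ∈ Finset.Icc 1 (E v), (k : ℝ) * ((X v k : ℝ) / 3) =
            ((∑ v, ∑ k ∈ Finset.Icc 1 (E v), k * X v k : ℕ) : ℝ) / 3 := by
          push_cast
          rw [Finset.sum_div]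
          apply Finset.sum_congr rfl
          intro v _
          rw [Finset.sum_div]
          apply Finset.sum_congr rfl
          intro k _
          ring
        rw [h1, key]
        norm_num
  · apply le_csInf
    · refine ⟨_, fun _ _ => 1, ⟨fun _ _ => zero_le_one, ?_⟩, rfl⟩
      intro u
      have key : ∀ u : Fin 17, ∃ v, 1 ≤ E v ∧ D u v ≤ 1 := by decide +kernel
      obtain ⟨v, h1, h2⟩ := key u
      simp only [G_dist, G_ecc]
      calc (1 : ℝ) = ∑ k ∈ ({1} : Finset ℕ), (1 : ℝ) := by simp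
        _ ≤ ∑ k ∈ (Finset.Icc 1 (E v)).filter (fun k => D u v ≤ k), (1 : ℝ) := by
            apply Finset.sum_le_sum_of_subset_of_nonneg
            · intro k hk
              rw [Finset.mem_singleton] at hk
              subst hk
              rw [Finset.mem_filter, Finset.mem_Icc]
              exact ⟨⟨le_rfl, h1⟩, h2⟩
            · intros; exact zero_le_one
        _ ≤ _ := Finset.single_le_sum
            (f := fun v => ∑ k ∈ (Finset.Icc 1 (E v)).filter (fun k => D u v ≤ k), (1 : ℝ))
            (fun v _ => Finset.sum_nonneg fun k _ => zero_le_one) (Finset.mem_univ v)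
    · rintro c ⟨x, hx, rfl⟩
      have h1 := weak_duality G (fun u => (Y u : ℝ) / 3) (fun u => by positivity) (by
        intro v k hk
        rw [G_ecc] at hk
        have key : ∀ v : Fin 17, ∀ k ∈ Finset.Icc 1 (E v), ∑ u, (if D u v ≤ k then Y u else 0) ≤ 3 * k := by
          decide +kernel
        simp only [G_dist]
        have h2 : ∑ u, (if D u v ≤ k then (Y u : ℝ) / 3 else 0) =
            ((∑ u, (if D u v ≤ k then Y u else 0) : ℕ) : ℝ) / 3 := by
          push_cast
          rw [Finset.sum_div]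
          apply Finset.sum_congr rfl
          intro u _
          split_ifs <;> simp
        rw [h2, div_le_iff₀ (by norm_num)]
        have := key v k hk
        have h3 : ((∑ u, (if D u v ≤ k then Y u else 0) : ℕ) : ℝ) ≤ ((3 * k : ℕ) : ℝ) := by
          exact_mod_cast this
        refine h3.trans_eq ?_
        push_cast
        ring) x hx
      have h2 : ∑ u, (Y u : ℝ) / 3 = 5 := by
        have key : ∑ u, Y u = 15 := by decide +kernel
        rw [← Finset.sum_div]
        have h3 : ∑ u, (Y u : ℝ) = ((∑ u, Y u : ℕ) : ℝ) := by push_cast; rfl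
        rw [h3, key]
        norm_num
      linarith

/-- There is a finite connected graph whose fractional broadcast number is an integer lying strictly between
the multipacking number and the broadcast domination number. -/
theorem result : ∃ (V : Type) (_ : Fintype V) (_ : DecidableEq V) (G : SimpleGraph V) (N : ℕ),
    G.Connected ∧ fracBroadcastNumber G = N ∧ multipackingNumber G < N ∧ N < broadcastNumber G := by
  refine ⟨Fin 17, inferInstance, inferInstance, G, 5, G_connected, ?_, ?_, ?_⟩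
  · rw [frac_eq]; norm_num
  · have := mp_le; omega
  · exact six_le

end Pool.Agent.Results.MP_93535d_co.Integral
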